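import Pool.Agent.Y922.NV.Stm

set_option autoImplicit false

/-! NV-NDG: `M` stays away from `i`. -/

namespace Pool.Agent.Y465.NV

open Complex ComplexConjugate Pool.Agent.Y922.NV

theorem weier {ι : Type} (s : Finset ι) (x : ι → ℝ) (h0 : ∀ i ∈ s, 0 ≤ x i)
    (h1 : ∀ i ∈ s, x i ≤ 1) : 1 - ∑ i ∈ s, x i ≤ ∏ i ∈ s, (1 - x i) := by
  classical
  induction s using Finset.induction_on with
  | empty => simp
  | insert i s hi ih =>
    rw [Finset.sum_insert hi, Finset.prod_insert hi]
    have ih' := ih (fun j hj => h0 j (Finset.mem_insert_of_mem hj))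
      (fun j hj => h1 j (Finset.mem_insert_of_mem hj))
    have hp : ∏ j ∈ s, (1 - x j) ≤ 1 := Finset.prod_le_one
      (fun j hj => sub_nonneg.2 (h1 j (Finset.mem_insert_of_mem hj)))
      (fun j hj => by linarith [h0 j (Finset.mem_insert_of_mem hj)])
    have hxi := h0 i (Finset.mem_insert_self i s)
    have := mul_le_mul_of_nonneg_left hp hxi
    linarith

theorem factor (z a : ℂ) (hz : 0 < z.im) (ha : 0 < a.im) :
    normSq (z - conj a) * (1 - 4 * a.im / z.im) ≤ normSq (z - a) := by
  have h1 : normSq (z - a) = normSq (z - conj a) - 4 * z.im * a.im := by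
    simp only [normSq_apply, sub_re, sub_im, conj_re, conj_im]
    ring
  have h2 : z.im ^ 2 ≤ normSq (z - conj a) := by
    simp only [normSq_apply, sub_re, sub_im, conj_re, conj_im]
    nlinarith [sq_nonneg (z.re - a.re), mul_pos hz ha, sq_nonneg a.im]
  have h3 : z.im ^ 2 * (4 * a.im / z.im) = 4 * z.im * a.im := by
    field_simp
  have h4 : 0 ≤ 4 * a.im / z.im := by positivity
  have h5 := mul_le_mul_of_nonneg_right h2 h4
  rw [h3] at h5
  rw [h1]
  linarith

theorem t_NDG : S_NDG := by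
  intro ι s a hs ha hsum z hz
  have hz0 : 0 < z.im := by linarith
  have hxs : ∑ i ∈ s, 4 * (a i).im / z.im ≤ 1 / 2 := by
    rw [← Finset.sum_div, ← Finset.mul_sum, div_le_iff₀ hz0]
    linarith
  have hx0 : ∀ i ∈ s, 0 ≤ 4 * (a i).im / z.im := fun i hi => by
    have := ha i hi
    positivity
  have hx1 : ∀ i ∈ s, 4 * (a i).im / z.im ≤ 1 := fun i hi => by
    have := Finset.single_le_sum hx0 hi
    linarith
  have h1 : normSq (QQ s a z) ≤ 2 * normSq (PP s a z) := by
    unfold QQ PP
    rw [map_prod, map_prod]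
    have h2 : (∏ i ∈ s, normSq (z - conj (a i))) * ∏ i ∈ s, (1 - 4 * (a i).im / z.im) ≤
        ∏ i ∈ s, normSq (z - a i) := by
      rw [← Finset.prod_mul_distrib]
      refine Finset.prod_le_prod (fun i hi => mul_nonneg (normSq_nonneg _)
        (sub_nonneg.2 (hx1 i hi))) fun i hi => factor z (a i) hz0 (ha i hi)
    have h3 := weier s (fun i => 4 * (a i).im / z.im) hx0 hx1
    have h4 : (1 / 2 : ℝ) ≤ ∏ i ∈ s, (1 - 4 * (a i).im / z.im) := by
      refine le_trans ?_ h3
      linarith
    have h5 : 0 ≤ ∏ i ∈ s, normSq (z - conj (a i)) :=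
      Finset.prod_nonneg fun i _ => normSq_nonneg _
    have h6 := mul_le_mul_of_nonneg_left h4 h5
    linarith
  have h2 : ‖QQ s a z‖ ≤ 3 * ‖PP s a z‖ := by
    rw [normSq_eq_norm_sq, normSq_eq_norm_sq] at h1
    have h3 := norm_nonneg (PP s a z)
    have h4 := norm_nonneg (QQ s a z)
    nlinarith
  by_cases h0 : QQ s a z - PP s a z = 0
  · unfold MM
    rw [h0, div_zero, zero_sub, norm_neg, norm_I]
    norm_num
  · have h3 : MM s a z - I = 2 * I * PP s a z / (QQ s a z - PP s a z) := by
      unfold MM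
      field_simp
      ring
    have h4 : 0 < ‖QQ s a z - PP s a z‖ := norm_pos_iff.2 h0
    have h5 := norm_sub_le (QQ s a z) (PP s a z)
    rw [h3, norm_div, norm_mul, norm_mul, norm_I, Complex.norm_ofNat, mul_one, le_div_iff₀ h4]
    linarith

end Pool.Agent.Y465.NV
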